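import Mathlib
import Pool.Agent.V1181.RadBig3

/-!
# Volumes of radial constant Q-curvature metrics
-/

set_option autoImplicit false

namespace Pool.Agent.Results.MP_8a049f_an.AllVolumes

open Pool.Agent.V1181
open Real Set Filter MeasureTheory Topology InnerProductSpace Laplacian

noncomputable section

/-- The operator `-Δ` on functions on `ℝ^{2m}`. -/
def negLap {m : ℕ} (f : EuclideanSpace ℝ (Fin (2 * m)) → ℝ) :
    EuclideanSpace ℝ (Fin (2 * m)) → ℝ := fun x => -(Δ f x)

/-- The volumes of the radial solutions `u` of `(-Δ)^m u = (2m-1)! e^{2mu}` on `ℝ^{2m}` with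
finite volume. -/
def volumes (m : ℕ) : Set ℝ :=
  {V | ∃ u : EuclideanSpace ℝ (Fin (2 * m)) → ℝ, ContDiff ℝ (⊤ : ℕ∞) u ∧
    (∀ x y, ‖x‖ = ‖y‖ → u x = u y) ∧
    (∀ x, (negLap^[m] u) x = ((2 * m - 1).factorial : ℝ) * exp (2 * m * u x)) ∧
    Integrable (fun x => exp (2 * m * u x)) ∧ V = ∫ x, exp (2 * m * u x)}

/-- The volume of the annulus. -/
theorem annulus {E : Type*} [NormedAddCommGroup E] [InnerProductSpace ℝ E] [FiniteDimensional ℝ E]
    [MeasurableSpace E] [BorelSpace E] {N : ℕ} (hN : Module.finrank ℝ E = N + 1) {h : ℝ}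
    (hh : 0 < h) : (volume : Measure E).real (Metric.ball 0 1) * h ≤
      (volume : Measure E).real (Metric.closedBall 0 (1 + h) \ Metric.ball 0 1) := by
  have hsub : Metric.ball (0 : E) 1 ⊆ Metric.closedBall 0 (1 + h) :=
    (Metric.ball_subset_closedBall).trans (Metric.closedBall_subset_closedBall (by linarith))
  rw [measureReal_sdiff hsub measurableSet_ball measure_closedBall_lt_top.ne]
  have h1 : (volume : Measure E).real (Metric.closedBall 0 (1 + h))
      = (1 + h) ^ (N + 1) * (volume : Measure E).real (Metric.ball 0 1) := by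
    rw [measureReal_def, Measure.addHaar_closedBall _ _ (by positivity), hN, ENNReal.toReal_mul,
      ENNReal.toReal_ofReal (by positivity), measureReal_def]
  rw [h1]
  have h2 : 1 + ((N + 1 : ℕ) : ℝ) * h ≤ (1 + h) ^ (N + 1) :=
    one_add_mul_le_pow (by linarith) (N + 1)
  have h3 : (0 : ℝ) ≤ (volume : Measure E).real (Metric.ball 0 1) := measureReal_nonneg
  push_cast at h2
  have h4 : (0 : ℝ) ≤ N * h := by positivity
  nlinarith

theorem gauss_int {E : Type*} [NormedAddCommGroup E] [InnerProductSpace ℝ E]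
    [FiniteDimensional ℝ E] [MeasurableSpace E] [BorelSpace E] {b : ℝ} (hb : 0 < b) :
    Integrable (fun x : E => exp (-b * ‖x‖ ^ 2)) := by
  refine Integrable.of_integral_ne_zero ?_
  rw [GaussianFourier.integral_rexp_neg_mul_sq_norm hb]
  positivity

theorem prof_le (n : ℕ) (β c s : ℝ) (hc : 0 ≤ c) (hs : 0 ≤ s) :
    prof n β c s ≤ β + c * (5 / 4) + -c * s := by
  unfold prof
  have h1 : (1 : ℝ) ≤ (1 + s) ^ n := one_le_pow₀ (by linarith)
  have h2 : s - 5 / 4 ≤ (s - 1) ^ 2 := by nlinarith [sq_nonneg (s - 3 / 2)]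
  have h3 : (s - 1) ^ 2 ≤ (s - 1) ^ 2 * (1 + s) ^ n := le_mul_of_one_le_right (sq_nonneg _) h1
  have h4 : c * (s - 5 / 4) ≤ c * ((s - 1) ^ 2 * (1 + s) ^ n) := by gcongr; linarith
  linarith

/-- Existence of a profile with prescribed total mass. -/
theorem exists_mass (n : ℕ) {E : Type*} [NormedAddCommGroup E] [InnerProductSpace ℝ E]
    [FiniteDimensional ℝ E] [MeasurableSpace E] [BorelSpace E]
    (hE : Module.finrank ℝ E = 2 * (n + 3)) {V : ℝ} (hV : 0 < V) :
    ∃ (a : ℕ → ℝ) (f g : ℝ → ℝ), ContDiff ℝ (⊤ : ℕ∞) f ∧ ContDiff ℝ (⊤ : ℕ∞) g ∧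
      f = Phi (n + 2) (n + 3) a g ∧ (∀ s, 0 ≤ s → g s = exp (f s)) ∧
      Integrable (fun x : E => exp (f (‖x‖ ^ 2))) ∧ ∫ x : E, exp (f (‖x‖ ^ 2)) = V := by
  obtain ⟨c₀, hc₀, hbase⟩ := exists_base n
  set ω := (volume : Measure E).real (Metric.ball 0 1) with hω
  have hωpos : 0 < ω := by
    rw [hω, measureReal_def]
    exact ENNReal.toReal_pos (Metric.measure_ball_pos _ _ one_pos).ne' measure_ball_lt_top.ne
  set c := c₀ * exp (-(9 * 5 ^ n)) * ω with hc
  have hcpos : 0 < c := by positivity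
  set μ := 1 + V / c with hμ
  have hμ1 : 1 ≤ μ := by have : 0 < V / c := by positivity
                         linarith
  have hμ0 : 0 < μ := by linarith
  obtain ⟨a, F, G, hF, hG, hFe, hGF, ha, hFb⟩ := hbase μ hμ1
  set β := log (c₀ * μ ^ 3) with hβ
  -- integrability of the basic solution
  have hFint : Integrable (fun x : E => exp (F (‖x‖ ^ 2))) := by
    have h1 := (gauss_int (E := E) (b := μ ^ 2 / 2) (by positivity)).const_mul
      (exp (β + 1 + μ ^ 2 / 2 * (5 / 4)))
    refine h1.mono' ?_ (Filter.Eventually.of_forall fun x => ?_)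
    · have := hF.continuous
      exact Continuous.aestronglyMeasurable (by fun_prop)
    · rw [Real.norm_of_nonneg (exp_pos _).le, ← exp_add]
      apply Real.exp_le_exp.2
      exact (hFb _ (sq_nonneg _)).trans (prof_le n _ _ _ (by positivity) (sq_nonneg _))
  -- the family
  choose f hf hfe using fun t : ℝ =>
    exists_cut (k := n + 2) (m := n + 2) (shiftData a t) hF 1 1
  have hfe' : ∀ t, f t = Phi (n + 2) (n + 2 + 1) (shiftData a t) (cutG F (f t)) := hfe
  have hup : ∀ t, 0 ≤ t → ∀ s, 0 ≤ s → f t s ≤ F s - t := fun t ht s hs =>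
    family_upper hF hG hFe hGF ht (hf t) (hfe' t) hs
  have hlow : ∀ t s, 0 ≤ s → prof n β (μ ^ 2) s - t ≤ f t s := by
    intro t s hs
    have h1 : f t s = Phi (n + 2) (n + 2 + 1) a (cutG F (f t)) s - t := by
      conv_lhs => rw [hfe' t]
      exact shiftData_sub a t _ s
    have h2 := Phi_le (k := n + 2) (n + 2 + 1) a (G := fun _ => 0) continuous_const
      (cutG_smooth hF (hf t)).continuous hs fun q _ _ => cutG_nonneg F (f t) q
    rw [ha] at h2
    linarith
  have hmeas : ∀ t, AEStronglyMeasurable (fun x : E => exp (f t (‖x‖ ^ 2))) volume := fun t => by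
    have := (hf t).continuous
    exact Continuous.aestronglyMeasurable (by fun_prop)
  have hfint : ∀ t, 0 ≤ t → Integrable (fun x : E => exp (f t (‖x‖ ^ 2))) := by
    intro t ht
    refine hFint.mono' (hmeas t) (Filter.Eventually.of_forall fun x => ?_)
    rw [Real.norm_of_nonneg (exp_pos _).le]
    apply Real.exp_le_exp.2
    have := hup t ht _ (sq_nonneg ‖x‖)
    linarith
  set Vol : ℝ → ℝ := fun t => ∫ x : E, exp (f t (‖x‖ ^ 2)) with hVol
  have hcont : ContinuousOn Vol (Ici 0) := by
    refine continuousOn_of_dominated (fun t _ => hmeas t) (bound := fun x : E => exp (F (‖x‖ ^ 2)))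
      (fun t ht => Filter.Eventually.of_forall fun x => ?_) hFint
      (Filter.Eventually.of_forall fun x => ?_)
    · rw [Real.norm_of_nonneg (exp_pos _).le]
      apply Real.exp_le_exp.2
      have := hup t ht _ (sq_nonneg ‖x‖)
      have ht' : 0 ≤ t := ht
      linarith
    · obtain ⟨C, hC0, hC⟩ := family_lip (k := n + 2) (d := n + 2) (a := a) hF (sq_nonneg ‖x‖)
      have hl : Continuous fun t => f t (‖x‖ ^ 2) := by
        have : LipschitzWith (Real.toNNReal C) fun t => f t (‖x‖ ^ 2) := by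
          refine LipschitzWith.of_dist_le_mul fun t t' => ?_
          rw [Real.dist_eq, Real.dist_eq, Real.coe_toNNReal C hC0]
          exact hC t t' (f t) (f t') (hf t) (hf t') (hfe' t) (hfe' t')
        exact this.continuous
      exact (Real.continuous_exp.comp hl).continuousOn
  -- lower bound at `t = 0`
  have hV0 : V ≤ Vol 0 := by
    set S := Metric.closedBall (0 : E) (1 + 1 / μ) \ Metric.ball 0 1 with hS
    have hSm : MeasurableSet S := measurableSet_closedBall.diff measurableSet_ball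
    have hSf : volume S ≠ ⊤ := ne_top_of_le_ne_top measure_closedBall_lt_top.ne
      (measure_mono sdiff_subset)
    have h1 : ∀ x ∈ S, exp (β - 9 * 5 ^ n) ≤ exp (f 0 (‖x‖ ^ 2)) := by
      intro x hx
      apply Real.exp_le_exp.2
      refine le_trans ?_ (hlow 0 _ (sq_nonneg _))
      have hx1 : ‖x‖ ≤ 1 + 1 / μ := by simpa using hx.1
      have hx2 : 1 ≤ ‖x‖ := by simpa using hx.2
      have hμi : 1 / μ ≤ 1 := by rw [div_le_one hμ0]; exact hμ1
      have hμp : 0 < 1 / μ := by positivity
      have h3 : ‖x‖ ^ 2 - 1 ≤ 3 * (1 / μ) := by nlinarith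
      have h4 : 0 ≤ ‖x‖ ^ 2 - 1 := by nlinarith
      have h5 : (‖x‖ ^ 2 - 1) ^ 2 ≤ 9 * (1 / μ) ^ 2 := by nlinarith
      have h6 : (1 + ‖x‖ ^ 2) ^ n ≤ 5 ^ n := by
        apply pow_le_pow_left₀ (by positivity)
        nlinarith
      have h7 : μ ^ 2 * ((‖x‖ ^ 2 - 1) ^ 2 * (1 + ‖x‖ ^ 2) ^ n) ≤
          μ ^ 2 * (9 * (1 / μ) ^ 2 * 5 ^ n) := by gcongr
      have h8 : μ ^ 2 * (9 * (1 / μ) ^ 2 * 5 ^ n) = 9 * 5 ^ n := by
        field_simp
      unfold prof
      linarith
    have h2 : exp (β - 9 * 5 ^ n) * (volume : Measure E).real S ≤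
        ∫ x in S, exp (f 0 (‖x‖ ^ 2)) := by
      have := setIntegral_mono_on (μ := volume) (integrableOn_const hSf)
        (hfint 0 le_rfl).integrableOn hSm h1
      rw [setIntegral_const, smul_eq_mul] at this
      linarith
    have h3 : ∫ x in S, exp (f 0 (‖x‖ ^ 2)) ≤ Vol 0 :=
      setIntegral_le_integral (hfint 0 le_rfl) (Filter.Eventually.of_forall fun x =>
        (exp_pos _).le)
    have h4 := annulus (E := E) (N := 2 * n + 5) (by omega) (h := 1 / μ) (by positivity)
    rw [← hω, ← hS] at h4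
    have h5 : exp (β - 9 * 5 ^ n) = c₀ * μ ^ 3 * exp (-(9 * 5 ^ n)) := by
      rw [sub_eq_add_neg, exp_add, hβ, exp_log (by positivity)]
    have h6 : exp (β - 9 * 5 ^ n) * (ω * (1 / μ)) = c * μ ^ 2 := by
      rw [h5, hc]
      field_simp
    have h7 : exp (β - 9 * 5 ^ n) * (ω * (1 / μ)) ≤
        exp (β - 9 * 5 ^ n) * (volume : Measure E).real S := by gcongr
    have h8 : V ≤ c * μ ^ 2 := by
      have h9 : c * μ = c + V := by rw [hμ]; field_simp
      nlinarith
    linarith
  -- upper bound for large `t`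
  have hF1 : V ≤ ∫ x : E, exp (F (‖x‖ ^ 2)) := by
    refine hV0.trans (integral_mono (hfint 0 le_rfl) hFint fun x => ?_)
    apply Real.exp_le_exp.2
    have := hup 0 le_rfl _ (sq_nonneg ‖x‖)
    linarith
  set VF := ∫ x : E, exp (F (‖x‖ ^ 2)) with hVF
  have hVFpos : 0 < VF := lt_of_lt_of_le hV hF1
  set T := log (VF / V) with hT
  have hT0 : 0 ≤ T := Real.log_nonneg ((one_le_div hV).2 hF1)
  have hVT : Vol T ≤ V := by
    have h1 : Vol T ≤ ∫ x : E, exp (-T) * exp (F (‖x‖ ^ 2)) := by
      refine integral_mono (hfint T hT0) (hFint.const_mul _) fun x => ?_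
      simp only
      rw [← exp_add]
      apply Real.exp_le_exp.2
      have := hup T hT0 _ (sq_nonneg ‖x‖)
      linarith
    rw [integral_const_mul, hT, Real.exp_neg, exp_log (by positivity), ← hVF] at h1
    refine h1.trans (le_of_eq ?_)
    field_simp
  obtain ⟨t, ht, htV⟩ := intermediate_value_Icc' hT0 (hcont.mono Icc_subset_Ici_self) ⟨hVT, hV0⟩
  refine ⟨shiftData a t, f t, cutG F (f t), hf t, cutG_smooth hF (hf t), hfe' t, ?_, hfint t ht.1,
    htV⟩
  intro s hs
  have h1 := hup t ht.1 s hs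
  simp only [cutG, one_mul]
  rw [eta_eq (by linarith [ht.1]), ← exp_add]
  congr 1
  ring

/-- Scaling of `Phi`. -/
theorem Phi_smul {k : ℕ} (c : ℝ) : ∀ (m : ℕ) (a : ℕ → ℝ) (G : ℝ → ℝ) (s : ℝ),
    Phi k m (fun i => c * a i) (fun t => c * G t) s = c * Phi k m a G s := by
  intro m
  induction m with
  | zero => intro a G s; rfl
  | succ m ih =>
    intro a G s
    have h : Phi k m (fun i => c * a (i + 1)) (fun t => c * G t)
        = fun s => c * Phi k m (fun i => a (i + 1)) G s := by
      funext t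
      exact ih _ _ t
    have hA : ∀ H : ℝ → ℝ, A k (fun s => c * H s) = fun s => c * A k H s := by
      intro H
      funext r
      unfold A
      rw [← intervalIntegral.integral_const_mul]
      congr 1
      funext τ
      ring
    have hK : ∀ H : ℝ → ℝ, K k (fun s => c * H s) s = c * K k H s := by
      intro H
      unfold K
      rw [hA, intervalIntegral.integral_const_mul]
      ring
    show c * a 0 + K k (Phi k m (fun i => c * a (i + 1)) (fun t => c * G t)) s
      = c * (a 0 + K k (Phi k m (fun i => a (i + 1)) G) s)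
    rw [h, hK]
    ring

theorem negLap_iter {m : ℕ} {u : EuclideanSpace ℝ (Fin (2 * m)) → ℝ}
    (hu : ContDiff ℝ (⊤ : ℕ∞) u) (j : ℕ) :
    negLap^[j] u = fun x => (-1) ^ j * lapIter j u x := by
  induction j with
  | zero => funext x; simp [lapIter]
  | succ j ih =>
    rw [Function.iterate_succ_apply', ih]
    funext x
    have h1 : (fun x => (-1 : ℝ) ^ j * lapIter j u x) = ((-1 : ℝ) ^ j) • lapIter j u := by
      funext y
      simp [smul_eq_mul]
    unfold negLap
    have hsm : ContDiffAt ℝ 2 (lapIter j u) x :=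
      (contDiff_infty.1 (lapIter_smooth hu j) 2).contDiffAt
    rw [h1, laplacian_smul _ hsm, lapIter_succ']
    simp only [smul_eq_mul]
    ring

/-- For every even `m ≥ 4` the volumes of the radial solutions fill `(0, ∞)`. -/
theorem result (m : ℕ) (hm : 4 ≤ m) (he : Even m) : volumes m = Ioi 0 := by
  obtain ⟨n, rfl⟩ : ∃ n, m = n + 3 := ⟨m - 3, by omega⟩
  have hdim : Module.finrank ℝ (EuclideanSpace ℝ (Fin (2 * (n + 3)))) = 2 * (n + 3) := by simp
  ext V
  constructor
  · rintro ⟨u, hu, _, _, hint, rfl⟩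
    show 0 < ∫ x, exp (2 * ((n + 3 : ℕ) : ℝ) * u x)
    exact integral_exp_pos hint
  · intro hV
    have hV' : 0 < V := hV
    set N : ℝ := 2 * ((n + 3 : ℕ) : ℝ) with hN
    have hNpos : 0 < N := by positivity
    set fac : ℝ := ((2 * (n + 3)).factorial : ℝ) with hfac
    have hfacpos : 0 < fac := by positivity
    obtain ⟨a, f, g, hf, hg, hfe, hgf, hint, hmass⟩ :=
      exists_mass n (E := EuclideanSpace ℝ (Fin (2 * (n + 3)))) hdim (V := V * fac) (by positivity)
    set c : ℝ := 1 / N with hc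
    set c1 : ℝ := -(log fac / N) with hc1
    set a' : ℕ → ℝ := fun i => match i with
      | 0 => c * a 0 + c1
      | (i + 1) => c * a (i + 1) with ha'
    have hu : ∀ s, c * f s + c1 = Phi (n + 2) (n + 3) a' (fun t => c * g t) s := by
      intro s
      have h1 := Phi_data (k := n + 2) (n + 2) a' (fun i => c * a i) (fun i => rfl)
        (fun t => c * g t) s
      have h2 := Phi_smul (k := n + 2) c (n + 3) a g s
      have h3 : f s = Phi (n + 2) (n + 3) a g s := congrFun hfe s
      have h4 : a' 0 = c * a 0 + c1 := rfl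
      have h5 : Phi (n + 2) (n + 3) a' (fun t => c * g t) s
        = Phi (n + 2) (n + 3) (fun i => c * a i) (fun t => c * g t) s + (a' 0 - c * a 0) := h1
      rw [h5, h2, h4, ← h3]
      ring
    have hexp : ∀ x : EuclideanSpace ℝ (Fin (2 * (n + 3))), exp (N * (c * f (‖x‖ ^ 2) + c1)) = exp (f (‖x‖ ^ 2)) / fac := by
      intro x
      have h1 : N * (c * f (‖x‖ ^ 2) + c1) = f (‖x‖ ^ 2) - log fac := by
        rw [hc, hc1]
        field_simp
        ring
      rw [h1, exp_sub, exp_log hfacpos]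
    refine ⟨fun x : EuclideanSpace ℝ (Fin (2 * (n + 3))) => c * f (‖x‖ ^ 2) + c1, ?_, ?_, ?_, ?_, ?_⟩
    · exact (contDiff_const.mul (hf.comp (contDiff_norm_sq ℝ))).add contDiff_const
    · intro x y hxy
      show c * f (‖x‖ ^ 2) + c1 = c * f (‖y‖ ^ 2) + c1
      rw [hxy]
    · intro x
      have husm : ContDiff ℝ (⊤ : ℕ∞) fun x : EuclideanSpace ℝ (Fin (2 * (n + 3))) =>
          c * f (‖x‖ ^ 2) + c1 :=
        (contDiff_const.mul (hf.comp (contDiff_norm_sq ℝ))).add contDiff_const
      rw [negLap_iter husm, he.neg_one_pow]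
      simp only [one_mul]
      have hcg : ContDiff ℝ (⊤ : ℕ∞) fun t => c * g t := contDiff_const.mul hg
      have h1 : (fun x : EuclideanSpace ℝ (Fin (2 * (n + 3))) => c * f (‖x‖ ^ 2) + c1)
          = fun x : EuclideanSpace ℝ (Fin (2 * (n + 3))) => Phi (n + 2) (n + 3) a' (fun t => c * g t) (‖x‖ ^ 2) := by
        funext x
        exact hu _
      rw [h1, lapIter_Phi hdim hcg (n + 3) a' (n + 3) le_rfl]
      simp only [Nat.sub_self, Phi]
      rw [hgf _ (sq_nonneg _)]
      have h2 := hexp x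
      rw [h2]
      have h3 : fac = 2 * ((n + 3 : ℕ) : ℝ) * ((2 * (n + 3) - 1).factorial : ℝ) := by
        rw [hfac]
        have : 2 * (n + 3) = (2 * (n + 3) - 1) + 1 := by omega
        conv_lhs => rw [this, Nat.factorial_succ]
        push_cast
        have h4 : ((2 * (n + 3) - 1 : ℕ) : ℝ) = 2 * ((n : ℝ) + 3) - 1 := by
          rw [Nat.cast_sub (by omega)]
          push_cast
          ring
        rw [h4]
        ring
      have h4 : (0 : ℝ) < ((2 * (n + 3) - 1).factorial : ℝ) := by positivity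
      rw [h3, hc, hN]
      field_simp
    · have h1 : (fun x : EuclideanSpace ℝ (Fin (2 * (n + 3))) => exp (N * (c * f (‖x‖ ^ 2) + c1)))
          = fun x => exp (f (‖x‖ ^ 2)) / fac := funext hexp
      show Integrable (fun x : EuclideanSpace ℝ (Fin (2 * (n + 3))) => exp (N * (c * f (‖x‖ ^ 2) + c1)))
      rw [h1]
      exact hint.div_const fac
    · have h1 : (fun x : EuclideanSpace ℝ (Fin (2 * (n + 3))) => exp (N * (c * f (‖x‖ ^ 2) + c1)))
          = fun x => exp (f (‖x‖ ^ 2)) / fac := funext hexp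
      show V = ∫ x : EuclideanSpace ℝ (Fin (2 * (n + 3))), exp (N * (c * f (‖x‖ ^ 2) + c1))
      rw [h1, integral_div, hmass]
      field_simp

end

end Pool.Agent.Results.MP_8a049f_an.AllVolumes
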